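import Pool.Agent.H15.SQ4

theorem Pool.Agent.Results.MP_d76130_gt.Counter.result :
    ∃ (X : Type) (_ : TopologicalSpace X), T35Space X ∧
      TopologicalSpace.IsTopologicalBasis {U : Set X | IsClopen U} ∧
      NormalSpace {f : X → Bool // Continuous f} ∧
      ¬ NormalSpace ({f : X → Bool // Continuous f} × {f : X → Bool // Continuous f}) := by
  obtain ⟨X, _, h1, h2, h3, h4⟩ := Pool.Agent.H15.SQ.main
  exact ⟨X, inferInstance, h1, h2, inferInstance, h4⟩
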